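import Pool.Agent.H75.FR2

set_option autoImplicit false

open Pool.Agent.H75.FR in
theorem Pool.Agent.Results.MP_129c4a_an.Discrete.result :
  ∀ (G : Type) [Group G] [Infinite G]
    (A : Type) [NonUnitalNormedCommRing A] [NormedSpace ℂ A] [IsScalarTower ℂ A A]
    [SMulCommClass ℂ A A] (ι : A →ₙₐ[ℂ] (G → ℂ)), IsFourier G ι →
    ∃ Ψ : StrongDual ℂ (StrongDual ℂ A), Ψ ≠ 0 ∧ (∀ Φ, box Φ Ψ = 0) ∧ Ψ ∈ rad A :=
  fun _ _ _ _ _ _ _ _ _ h => h.main
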